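import Pool.Agent.H60.CM.Basic

/-!
# Stable surfaces of constant mean curvature spanning a circle, row FLX
-/

set_option autoImplicit false

open Set Function MeasureTheory Filter Topology
open scoped Manifold ContDiff Matrix

namespace Pool.Agent.H21.CM

open Pool.Agent.H60.CM

/-! ### a smooth step -/

/-- a smooth function which is `0` on `(-∞, 1/3]`, constant on `[2/3, ∞)`, with nonnegative
derivative, positive at `1/2` -/
theorem exists_step : ∃ (χ : ℝ → ℝ) (c : ℝ), ContDiff ℝ ∞ χ ∧ (∀ t ≤ 1 / 3, χ t = 0) ∧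
    (∀ t, 2 / 3 ≤ t → χ t = c) ∧ (∀ t, 0 ≤ deriv χ t) ∧ 0 < deriv χ (1 / 2) := by
  let ρ : ContDiffBump (1 / 2 : ℝ) := ⟨1 / 12, 1 / 6, by norm_num, by norm_num⟩
  have hρc : Continuous (fun t => ρ t) := ρ.continuous
  have hder : ∀ t, HasDerivAt (fun t => ∫ u in (1 / 3 : ℝ)..t, ρ u) (ρ t) t := fun t =>
    intervalIntegral.integral_hasDerivAt_right (hρc.intervalIntegrable _ _)
      (hρc.stronglyMeasurableAtFilter _ _) hρc.continuousAt
  have hder' : deriv (fun t => ∫ u in (1 / 3 : ℝ)..t, ρ u) = fun t => ρ t := by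
    funext t
    exact (hder t).deriv
  have h0 : ∀ t, t ≤ 1 / 3 → ρ t = 0 := by
    intro t ht
    apply ρ.zero_of_le_dist
    rw [Real.dist_eq]
    change (1 / 6 : ℝ) ≤ |t - 1 / 2|
    rw [abs_of_nonpos (by linarith)]
    linarith
  have h1 : ∀ t, 2 / 3 ≤ t → ρ t = 0 := by
    intro t ht
    apply ρ.zero_of_le_dist
    rw [Real.dist_eq]
    change (1 / 6 : ℝ) ≤ |t - 1 / 2|
    rw [abs_of_nonneg (by linarith)]
    linarith
  refine ⟨fun t => ∫ u in (1 / 3 : ℝ)..t, ρ u, ∫ u in (1 / 3 : ℝ)..(2 / 3), ρ u, ?_, ?_, ?_,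
    ?_, ?_⟩
  · rw [contDiff_infty_iff_deriv, hder']
    exact ⟨fun t => (hder t).differentiableAt, ρ.contDiff⟩
  · intro t ht
    change ∫ u in (1 / 3 : ℝ)..t, ρ u = 0
    rw [intervalIntegral.integral_symm, neg_eq_zero]
    have h2 : ∫ u in t..(1 / 3 : ℝ), ρ u = ∫ _u in t..(1 / 3 : ℝ), (0 : ℝ) := by
      refine intervalIntegral.integral_congr fun u hu => ?_
      rw [uIcc_of_le ht] at hu
      exact h0 u hu.2
    rw [h2, intervalIntegral.integral_zero]
  · intro t ht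
    have h2 : ∫ u in (2 / 3 : ℝ)..t, ρ u = ∫ _u in (2 / 3 : ℝ)..t, (0 : ℝ) := by
      refine intervalIntegral.integral_congr fun u hu => ?_
      rw [uIcc_of_le ht] at hu
      exact h1 u hu.1
    change ∫ u in (1 / 3 : ℝ)..t, ρ u = _
    rw [← intervalIntegral.integral_add_adjacent_intervals (a := 1 / 3) (b := 2 / 3) (c := t)
      (hρc.intervalIntegrable _ _) (hρc.intervalIntegrable _ _), h2,
      intervalIntegral.integral_zero, add_zero]
  · intro t
    rw [hder']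
    exact ρ.nonneg
  · rw [hder']
    have : ρ (1 / 2 : ℝ) = 1 := ρ.one_of_mem_closedBall (Metric.mem_closedBall_self (by norm_num))
    change 0 < ρ (1 / 2 : ℝ)
    rw [this]
    norm_num

section

variable (D : Dat)

/-- the first two coordinates -/
def x0 (q : D.S) : ℝ := D.x q 0
def x1 (q : D.S) : ℝ := D.x q 1

/-- the square of the distance to the axis -/
def V2 (q : D.S) : ℝ := x0 D q * x0 D q + x1 D q * x1 D q

/-- its inverse -/
noncomputable def wf (q : D.S) : ℝ := (V2 D q)⁻¹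

/-- the coefficients of the angle form -/
noncomputable def P0 (q : D.S) : ℝ := (-(x1 D q)) * wf D q
noncomputable def P1 (q : D.S) : ℝ := x0 D q * wf D q

theorem smx0 : D.Sm (x0 D) := Dat.Sm.coord D D.smx 0
theorem smx1 : D.Sm (x1 D) := Dat.Sm.coord D D.smx 1

theorem smV2 : D.Sm (V2 D) :=
  Dat.Sm.add D (Dat.Sm.mul D (smx0 D) (smx0 D)) (Dat.Sm.mul D (smx1 D) (smx1 D))

variable (hV : ∀ p, V2 D p ≠ 0)

include hV

theorem smwf : D.Sm (wf D) := ContMDiff.inv₀ (smV2 D) hV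

theorem smP0 : D.Sm (P0 D) := Dat.Sm.mul D (Dat.Sm.neg D (smx1 D)) (smwf D hV)

theorem smP1 : D.Sm (P1 D) := Dat.Sm.mul D (smx0 D) (smwf D hV)

theorem dd_wf (p : D.S) (i : Fin 2) :
    V2 D p * dd (wf D) p i = -(wf D p * (2 * (x0 D p * dd (x0 D) p i + x1 D p * dd (x1 D) p i))) := by
  have m0 : MD (x0 D) p := Dat.Sm.md D (smx0 D) p
  have m1 : MD (x1 D) p := Dat.Sm.md D (smx1 D) p
  have mV : MD (V2 D) p := Dat.Sm.md D (smV2 D) p
  have mw : MD (wf D) p := Dat.Sm.md D (smwf D hV) p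
  have h1 : (fun q => wf D q * V2 D q) = fun _ => (1 : ℝ) := by
    funext q
    exact inv_mul_cancel₀ (hV q)
  have h2 := dd_mul mw mV i
  rw [h1, dd_const] at h2
  have h3 : dd (V2 D) p i = (x0 D p * dd (x0 D) p i + x0 D p * dd (x0 D) p i) +
      (x1 D p * dd (x1 D) p i + x1 D p * dd (x1 D) p i) := by
    have e : V2 D = fun q => x0 D q * x0 D q + x1 D q * x1 D q := rfl
    rw [e, dd_add (m0.mul m0) (m1.mul m1), dd_mul m0 m0, dd_mul m1 m1]
  rw [h3] at h2
  linear_combination -h2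

/-- the angle form is closed -/
theorem closed (p : D.S) :
    br D.x D.N (P0 D) (x0 D) p + br D.x D.N (P1 D) (x1 D) p = 0 := by
  have m0 : MD (x0 D) p := Dat.Sm.md D (smx0 D) p
  have m1 : MD (x1 D) p := Dat.Sm.md D (smx1 D) p
  have mw : MD (wf D) p := Dat.Sm.md D (smwf D hV) p
  have mn : MD (fun q => -(x1 D q)) p := Dat.Sm.md D (Dat.Sm.neg D (smx1 D)) p
  have h0 : ∀ i, dd (P0 D) p i = -(x1 D p) * dd (wf D) p i + wf D p * -(dd (x1 D) p i) := by
    intro i
    have e : P0 D = fun q => (-(x1 D q)) * wf D q := rfl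
    rw [e, dd_mul mn mw, dd_neg m1]
  have h1 : ∀ i, dd (P1 D) p i = x0 D p * dd (wf D) p i + wf D p * dd (x0 D) p i := by
    intro i
    have e : P1 D = fun q => x0 D q * wf D q := rfl
    rw [e, dd_mul m0 mw]
  unfold br brk
  rw [← add_div]
  rw [h0, h0, h1, h1]
  have k0 := dd_wf D hV p 0
  have k1 := dd_wf D hV p 1
  have hVp := hV p
  have hVd : V2 D p = x0 D p * x0 D p + x1 D p * x1 D p := rfl
  apply div_eq_zero_iff.2
  left
  have h5 : V2 D p * ((-(x1 D p) * dd (wf D) p 0 + wf D p * -(dd (x1 D) p 0)) * dd (x0 D) p 1 -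
      (-(x1 D p) * dd (wf D) p 1 + wf D p * -(dd (x1 D) p 1)) * dd (x0 D) p 0 +
      ((x0 D p * dd (wf D) p 0 + wf D p * dd (x0 D) p 0) * dd (x1 D) p 1 -
      (x0 D p * dd (wf D) p 1 + wf D p * dd (x0 D) p 1) * dd (x1 D) p 0)) = 0 := by
    linear_combination (-(x1 D p) * dd (x0 D) p 1 + x0 D p * dd (x1 D) p 1) * k0 +
      (x1 D p * dd (x0 D) p 0 - x0 D p * dd (x1 D) p 0) * k1 +
      (2 * wf D p * (dd (x0 D) p 0 * dd (x1 D) p 1 - dd (x0 D) p 1 * dd (x1 D) p 0)) * hVd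
  exact (mul_eq_zero.1 h5).resolve_left hVp

/-- the bracket with the angle form has integral zero -/
theorem int_zero (hB : T_PBR) (hC : T_CON) {η : D.S → ℝ} (hη : Tst D.int η) :
    ∫ p, (P0 D p * br D.x D.N η (x0 D) p + P1 D p * br D.x D.N η (x1 D) p) ∂D.μ = 0 := by
  have t0 : Tst D.int (fun q => P0 D q * η q) := Tst.mul_left (D := D) (smP0 D hV) hη
  have t1 : Tst D.int (fun q => P1 D q * η q) := Tst.mul_left (D := D) (smP1 D hV) hη
  have e : ∀ p, P0 D p * br D.x D.N η (x0 D) p + P1 D p * br D.x D.N η (x1 D) p =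
      br D.x D.N (fun q => P0 D q * η q) (x0 D) p + br D.x D.N (fun q => P1 D q * η q) (x1 D) p := by
    intro p
    have mη : MD η p := hη.md p
    rw [br_mul (Dat.Sm.md D (smP0 D hV) p) mη, br_mul (Dat.Sm.md D (smP1 D hV) p) mη]
    linear_combination -(η p) * closed D hV p
  simp only [e]
  rw [integral_add (D.cont_int (hC D _ _ t0.1 (smx0 D)).2) (D.cont_int (hC D _ _ t1.1 (smx1 D)).2),
    hB D _ _ t0 (smx0 D), hB D _ _ t1 (smx1 D), add_zero]

end

/-- the main case: `d` is positive near the boundary -/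
theorem core (h1 : T_PBR) (h2 : T_CON) (h3 : T_POS) (h4 : T_DNI) (h6 : T_BPC) (D : Dat)
    (d : D.S → ℝ) (s : ℝ) (hV : ∀ p, V2 D p ≠ 0) (hd : D.Sm d) (hd0 : ∀ p ∈ D.bd, d p = 0)
    (hs : ∀ p ∈ D.bd, 0 < s * (-(x1 D p) * br D.x D.N d (x0 D) p +
      x0 D p * br D.x D.N d (x1 D) p))
    (hpos : ∀ p ∈ D.bd, ∀ᶠ q in 𝓝 p, q ∈ D.int → 0 < d q) : False := by
  obtain ⟨⟨p₀, hp₀⟩, hbc, -, -⟩ := h6 D
  have hbcl : IsClosed D.bd := D.bd_closed
  have hdc : Continuous d := Dat.Sm.cont D hd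
  -- the neighbourhood of the boundary
  have hCc : Continuous fun p => s * (-(x1 D p) * br D.x D.N d (x0 D) p +
      x0 D p * br D.x D.N d (x1 D) p) := by
    have c0 := (h2 D d (x0 D) hd (smx0 D)).2
    have c1 := (h2 D d (x1 D) hd (smx1 D)).2
    have c2 := Dat.Sm.cont D (smx0 D)
    have c3 := Dat.Sm.cont D (smx1 D)
    fun_prop
  have hU1 : IsOpen {p : D.S | ∀ᶠ q in 𝓝 p, q ∈ D.int → 0 < d q} := isOpen_setOfPred_eventually_nhds
  have hU2 : IsOpen {p : D.S | 0 < s * (-(x1 D p) * br D.x D.N d (x0 D) p +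
      x0 D p * br D.x D.N d (x1 D) p)} := isOpen_lt continuous_const hCc
  obtain ⟨U, hUo, hbU, hcU⟩ := normal_exists_closure_subset hbcl (hU1.inter hU2)
    (fun p hp => ⟨hpos p hp, hs p hp⟩)
  have hdU : ∀ p ∈ closure U, p ∈ D.int → 0 < d p := fun p hp hpi =>
    (hcU hp).1.self_of_nhds hpi
  -- the bound on the frontier
  have hfr : ∀ p ∈ frontier U, 0 < d p := by
    intro p hp
    apply hdU p hp.1
    by_contra hpi
    rw [D.not_int] at hpi
    exact hp.2 (by rw [hUo.interior_eq]; exact hbU hpi)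
  obtain ⟨δ₀, hδ₀, hδf⟩ : ∃ δ₀ : ℝ, 0 < δ₀ ∧ ∀ p ∈ frontier U, δ₀ ≤ d p := by
    by_cases hne : (frontier U).Nonempty
    · obtain ⟨p, hp, hmin⟩ := (isClosed_frontier (s := U)).isCompact.exists_isMinOn hne
        hdc.continuousOn
      exact ⟨d p, hfr p hp, fun q hq => hmin hq⟩
    · exact ⟨1, one_pos, fun p hp => absurd ⟨p, hp⟩ hne⟩
  -- a point with a small value
  obtain ⟨q₀, hq₀U, hq₀i, hq₀d⟩ : ∃ q₀ ∈ U, q₀ ∈ D.int ∧ d q₀ < δ₀ / 2 := by
    have ho : IsOpen (U ∩ {p | d p < δ₀ / 2}) := hUo.inter (isOpen_lt hdc continuous_const)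
    have hn : (U ∩ {p | d p < δ₀ / 2}).Nonempty :=
      ⟨p₀, hbU hp₀, by
        change d p₀ < δ₀ / 2
        rw [hd0 p₀ hp₀]
        positivity⟩
    obtain ⟨q, hq, hqi⟩ := (h4 D).inter_open_nonempty _ ho hn
    exact ⟨q, hq.1, hqi, hq.2⟩
  have hq₀0 : 0 < d q₀ := hdU q₀ (subset_closure hq₀U) hq₀i
  obtain ⟨δ, hδ⟩ : ∃ δ, δ = 2 * d q₀ := ⟨_, rfl⟩
  have hδ0 : 0 < δ := by linarith
  have hδδ : δ < δ₀ := by linarith
  obtain ⟨χ, c, hχs, hχ0, hχ1, hχd, hχp⟩ := exists_step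
  -- the test function
  classical
  obtain ⟨η, hη⟩ : ∃ η : D.S → ℝ, η = fun p => if p ∈ U then χ (d p / δ) else c := ⟨_, rfl⟩
  have hη1 : ∀ p ∈ U, η =ᶠ[𝓝 p] fun q => χ (d q / δ) := by
    intro p hp
    filter_upwards [hUo.mem_nhds hp] with q hq
    rw [hη]
    exact if_pos hq
  have hη2 : ∀ p, p ∉ U → η =ᶠ[𝓝 p] fun _ => c := by
    intro p hp
    by_cases hpc : p ∈ closure U
    · have hpf : p ∈ frontier U := ⟨hpc, by rw [hUo.interior_eq]; exact hp⟩
      have h7 : δ * (2 / 3) < d p := by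
        have := hδf p hpf
        linarith
      filter_upwards [hdc.continuousAt.eventually (lt_mem_nhds h7)] with q hq
      rw [hη]
      by_cases hqU : q ∈ U
      · simp only [if_pos hqU]
        apply hχ1
        rw [le_div_iff₀ hδ0]
        linarith
      · simp only [if_neg hqU]
    · filter_upwards [isClosed_closure.isOpen_compl.mem_nhds hpc] with q hq
      rw [hη]
      exact if_neg fun h => hq (subset_closure h)
  have hsm0 : D.Sm (fun q => χ (d q / δ)) :=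
    Dat.Sm.comp_left D (Φ := fun t => χ (t / δ)) hd (hχs.comp (contDiff_id.div_const δ))
  have hηs : D.Sm η := by
    intro p
    by_cases hp : p ∈ U
    · exact (hsm0 p).congr_of_eventuallyEq (hη1 p hp)
    · exact (Dat.Sm.const D c p).congr_of_eventuallyEq (hη2 p hp)
  have hηT : Tst D.int η := by
    refine ⟨hηs, fun p hp => ?_⟩
    by_contra hpi
    rw [D.not_int] at hpi
    apply (notMem_tsupport_iff_eventuallyEq.2 _) hp
    have h7 : d p < δ / 3 := by
      rw [hd0 p hpi]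
      positivity
    filter_upwards [hη1 p (hbU hpi), hdc.continuousAt.eventually (gt_mem_nhds h7)] with q hq hq'
    rw [hq]
    apply hχ0
    rw [div_le_iff₀ hδ0]
    linarith
  -- the bracket
  have hbr1 : ∀ (g : D.S → ℝ), ∀ p ∈ U, br D.x D.N η g p =
      deriv χ (d p / δ) / δ * br D.x D.N d g p := by
    intro g p hp
    rw [br_congr (hη1 p hp)]
    have md : MD d p := Dat.Sm.md D hd p
    have hχd' : DifferentiableAt ℝ χ (d p / δ) := (hχs.differentiable (by simp)).differentiableAt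
    have hφ : HasDerivAt (fun t => χ (t / δ)) (deriv χ (d p / δ) * (1 / δ)) (d p) := by
      have h8 : HasDerivAt (fun t : ℝ => t / δ) (1 / δ) (d p) := (hasDerivAt_id _).div_const δ
      exact hχd'.hasDerivAt.comp (d p) h8
    have h9 := br_comp (x := D.x) (N := D.N) (f := g) md hφ.differentiableAt
    rw [h9, hφ.deriv, mul_one_div]
  have hbr2 : ∀ (g : D.S → ℝ), ∀ p, p ∉ U → br D.x D.N η g p = 0 := by
    intro g p hp
    rw [br_congr (hη2 p hp)]
    unfold br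
    rw [dd_const, dd_const]
    simp [brk]
  -- the integrand
  have hF : ∀ p, s * (P0 D p * br D.x D.N η (x0 D) p + P1 D p * br D.x D.N η (x1 D) p) =
      if p ∈ U then wf D p * (deriv χ (d p / δ) / δ) * (s * (-(x1 D p) * br D.x D.N d (x0 D) p +
      x0 D p * br D.x D.N d (x1 D) p)) else 0 := by
    intro p
    split_ifs with hp
    · rw [hbr1 _ p hp, hbr1 _ p hp]
      unfold P0 P1
      ring
    · rw [hbr2 _ p hp, hbr2 _ p hp]
      ring
  have hw : ∀ p, 0 < wf D p := by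
    intro p
    apply inv_pos.2
    have : 0 ≤ V2 D p := add_nonneg (mul_self_nonneg _) (mul_self_nonneg _)
    exact lt_of_le_of_ne this (hV p).symm
  have hF0 : ∀ p, 0 ≤ s * (P0 D p * br D.x D.N η (x0 D) p + P1 D p * br D.x D.N η (x1 D) p) := by
    intro p
    rw [hF]
    split_ifs with hp
    · refine mul_nonneg (mul_nonneg (hw p).le (div_nonneg (hχd _) hδ0.le)) ?_
      exact le_of_lt (hcU (subset_closure hp)).2
    · exact le_rfl
  have hFc : Continuous fun p => s * (P0 D p * br D.x D.N η (x0 D) p +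
      P1 D p * br D.x D.N η (x1 D) p) := by
    have c0 := (h2 D η (x0 D) hηs (smx0 D)).2
    have c1 := (h2 D η (x1 D) hηs (smx1 D)).2
    have c2 := Dat.Sm.cont D (smP0 D hV)
    have c3 := Dat.Sm.cont D (smP1 D hV)
    fun_prop
  have hFi : ∫ p, s * (P0 D p * br D.x D.N η (x0 D) p + P1 D p * br D.x D.N η (x1 D) p) ∂D.μ
      = 0 := by
    rw [integral_const_mul, int_zero D hV h1 h2 hηT, mul_zero]
  have hend := h3 D _ hFc hF0 hFi q₀ hq₀i
  simp only [hF, if_pos hq₀U] at hend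
  have e1 : d q₀ / δ = 1 / 2 := by
    rw [hδ]
    field_simp
  rw [e1] at hend
  have h10 : 0 < wf D q₀ * (deriv χ (1 / 2) / δ) * (s * (-(x1 D q₀) * br D.x D.N d (x0 D) q₀ +
      x0 D q₀ * br D.x D.N d (x1 D) q₀)) :=
    mul_pos (mul_pos (hw q₀) (div_pos hχp hδ0)) (hcU (subset_closure hq₀U)).2
  exact h10.ne' hend

/-- **Row FLX.** -/
theorem pf_FLX (h1 : T_PBR) (h2 : T_CON) (h3 : T_POS) (h4 : T_DNI) (h5 : T_BDF) (h6 : T_BPC) :
    T_FLX := by
  intro D d s hV hd hd0 hdd hs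
  have hV' : ∀ p, V2 D p ≠ 0 := by
    intro p
    have := hV p
    rw [sq, sq] at this
    exact this
  have ho1 : IsOpen {p : D.S | ∀ᶠ q in 𝓝 p, q ∈ D.int → 0 < d q} := isOpen_setOfPred_eventually_nhds
  have ho2 : IsOpen {p : D.S | ∀ᶠ q in 𝓝 p, q ∈ D.int → d q < 0} := isOpen_setOfPred_eventually_nhds
  have hdis : Disjoint {p : D.S | ∀ᶠ q in 𝓝 p, q ∈ D.int → 0 < d q}
      {p : D.S | ∀ᶠ q in 𝓝 p, q ∈ D.int → d q < 0} := by
    rw [Set.disjoint_left]
    intro p hp1 hp2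
    have h7 : ∀ᶠ q in 𝓝 p, q ∉ D.int := by
      filter_upwards [hp1, hp2] with q hq1 hq2 hqi
      exact absurd (hq1 hqi) (not_lt.2 (hq2 hqi).le)
    obtain ⟨V, hV1, hV2, hV3⟩ := eventually_nhds_iff.1 h7
    obtain ⟨q, hq, hqi⟩ := (h4 D).inter_open_nonempty V hV2 ⟨p, hV3⟩
    exact hV1 q hq hqi
  have hcov : D.bd ⊆ {p : D.S | ∀ᶠ q in 𝓝 p, q ∈ D.int → 0 < d q} ∪
      {p : D.S | ∀ᶠ q in 𝓝 p, q ∈ D.int → d q < 0} := fun p hp =>
    h5 D d hd hd0 p hp (hdd p hp)
  obtain ⟨⟨p₀, hp₀⟩, -, hcon, -⟩ := h6 D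
  rcases hcov hp₀ with h | h
  · have hsub := hcon.subset_left_of_subset_union ho1 ho2 hdis hcov ⟨p₀, hp₀, h⟩
    exact core h1 h2 h3 h4 h6 D d s hV' hd hd0 hs (fun p hp => hsub hp)
  · have hsub := hcon.subset_right_of_subset_union ho1 ho2 hdis hcov ⟨p₀, hp₀, h⟩
    have hneg : ∀ (g : D.S → ℝ) (p : D.S), br D.x D.N (fun q => -d q) g p =
        -br D.x D.N d g p := by
      intro g p
      have md : MD d p := Dat.Sm.md D hd p
      unfold br brk
      rw [dd_neg md, dd_neg md]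
      ring
    refine core h1 h2 h3 h4 h6 D (fun q => -d q) (-s) hV' (Dat.Sm.neg D hd)
      (fun p hp => by simp only [hd0 p hp, neg_zero]) (fun p hp => ?_) (fun p hp => ?_)
    · rw [hneg, hneg]
      have h8 := hs p hp
      have e : -s * (-(x1 D p) * -br D.x D.N d (x0 D) p + x0 D p * -br D.x D.N d (x1 D) p) =
          s * (-(x1 D p) * br D.x D.N d (x0 D) p + x0 D p * br D.x D.N d (x1 D) p) := by ring
      rw [e]
      exact h8
    · exact (hsub hp).mono fun q hq hqi => neg_pos.2 (hq hqi)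

end Pool.Agent.H21.CM
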